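import Mathlib
import Pool.Agent.Helper65.MT.St

open Real Filter

namespace Pool.Agent.Helper42.MT

open Pool.Agent.Helper65.MT Pool.Agent.Helper16

/-- Facts valid for large `t`. -/
lemma ge_facts : ∀ᶠ t : ℝ in atTop, 4 * (log t) ^ 7 ≤ t ∧ 1 ≤ log (log t) ∧
    110 * log (log t) ≤ log t := by
  have h1 := (isLittleO_pow_log_id_atTop (n := 7)).bound (c := 1 / 4) (by positivity)
  have h2 := tendsto_log_atTop.eventually_ge_atTop (1 : ℝ)
  have h3 := (tendsto_log_atTop.comp tendsto_log_atTop).eventually_ge_atTop 1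
  have h4 := (isLittleO_log_id_atTop.bound (c := 1 / 110) (by positivity))
  have h4' := tendsto_log_atTop.eventually h4
  filter_upwards [h1, h2, h3, h4', eventually_ge_atTop 1] with t a1 a2 a3 a4 a5
  simp only [Function.comp] at a3
  refine ⟨?_, a3, ?_⟩
  · rw [norm_eq_abs, norm_eq_abs, abs_of_nonneg (by positivity), id, abs_of_nonneg (by linarith)] at a1
    linarith
  · rw [norm_eq_abs, norm_eq_abs, id, abs_of_nonneg (by linarith),
      abs_of_nonneg (by linarith : (0 : ℝ) ≤ log t)] at a4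
    linarith

set_option maxHeartbeats 4000000 in
lemma exponentsGE (t s u : ℝ) (hs : s = log t) (hu : u = log s)
    (f1 : 4 * s ^ 7 ≤ t) (f3 : 1 ≤ u) (f4 : 110 * u ≤ s) (N p : ℕ) (hN1 : 2 ≤ N)
    (hN2 : (N : ℝ) ≤ 2 * s) (v : ℝ) (hv0 : 0 ≤ v) (hv : v ≤ N * s / 100)
    (hp1 : 4 * t / (N * s) ≤ p) (hp2 : (p : ℝ) ≤ 2 * (4 * t / (N * s) + 1)) :
    s ^ 5 < p ∧
    p * log p + (2 * p + 1) * v + log N + (N * p + 1) * log 2 + N * p * (6 * u) +
      (-(N * p * log (N * p)) + N * p) + 2 * s ^ 5 + t ≤ -1 ∧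
    p * log p + (2 * p + 1) * v + log N + (N * p + 1) * log 2 + 1 + p * 0 +
      (-(30 * t * (1 / N + v / (N * s)))) ≤ -1 := by
  have hs110 : 110 ≤ s := by linarith
  have hs0 : 0 < s := by linarith
  have hs1 : 1 ≤ s := by linarith
  have ht0 : 0 < t := by
    have := pow_pos hs0 7
    linarith
  have hNR : (2 : ℝ) ≤ N := by exact_mod_cast hN1
  have hN0 : (0 : ℝ) < N := by linarith
  set R : ℝ := t / s with hR
  have hRs : R * s = t := by rw [hR]; field_simp
  have hR0 : 0 < R := by positivity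
  have hRge : 4 * s ^ 6 ≤ R := by
    rw [hR, le_div_iff₀ hs0]
    calc 4 * s ^ 6 * s = 4 * s ^ 7 := by ring
      _ ≤ t := f1
  have hs56 : s ^ 5 ≤ s ^ 6 := pow_le_pow_right₀ hs1 (by norm_num)
  have hs15 : s ≤ s ^ 5 := by
    calc s = s ^ 1 := by ring
      _ ≤ s ^ 5 := pow_le_pow_right₀ hs1 (by norm_num)
  have hs16 : s ≤ s ^ 6 := hs15.trans hs56
  have hR4s : 4 * s ≤ R := by linarith
  have hR5 : 2 * s ^ 5 ≤ R := by
    have : 0 < s ^ 5 := by positivity
    linarith
  -- p bounds
  have hy : 4 * t / (N * s) = 4 * R / N := by rw [hR]; field_simp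
  rw [hy] at hp1 hp2
  have hNp1 : 4 * R ≤ N * p := by
    rw [div_le_iff₀ hN0] at hp1; linarith
  have hNp2 : N * p ≤ 8 * R + 2 * N := by
    have h := mul_le_mul_of_nonneg_left hp2 hN0.le
    have e : (N : ℝ) * (2 * (4 * R / N + 1)) = 8 * R + 2 * N := by field_simp; ring
    linarith
  have hNp3 : N * p ≤ 9 * R := by linarith
  have hpgt : s ^ 5 < p := by
    have h3 : 4 * R ≤ 2 * s * p := by
      have : (0 : ℝ) ≤ p := by positivity
      nlinarith
    have h4 : s * (2 * s ^ 5) < s * p := by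
      have : 0 < s ^ 6 := by positivity
      calc s * (2 * s ^ 5) = 2 * s ^ 6 := by ring
        _ < s * p := by linarith
    have h5 : 2 * s ^ 5 < p := lt_of_mul_lt_mul_left h4 hs0.le
    have : 0 < s ^ 5 := by positivity
    linarith
  have hp1' : (1 : ℝ) ≤ p := by linarith
  have hp0 : (0 : ℝ) < p := by linarith
  have hpR : (p : ℝ) ≤ 9 * R / N := by
    rw [le_div_iff₀ hN0]
    linarith
  have hpt : (p : ℝ) ≤ t := by
    have h1 : 2 * (p : ℝ) ≤ N * p := by nlinarith
    have h2 : 9 * R ≤ 2 * t := by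
      rw [← hRs]
      nlinarith
    linarith
  -- logs
  have hlogps : log p ≤ s := by rw [hs]; exact log_le_log hp0 hpt
  have hlogp0 : 0 ≤ log (p : ℝ) := log_nonneg hp1'
  have hlogNp : s - u ≤ log (N * p) := by
    have h3 : R ≤ N * p := by linarith
    calc s - u = log R := by rw [hR, log_div ht0.ne' hs0.ne', ← hs, ← hu]
      _ ≤ log (N * p) := log_le_log hR0 h3
  have hlogpNp : log p ≤ log (N * p) := by
    refine log_le_log hp0 ?_
    nlinarith
  have hlogN : log N ≤ N := (log_le_sub_one_of_pos hN0).trans (by linarith)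
  have hlogNR : log N ≤ R := by linarith
  have hlog2 : log 2 ≤ 7 / 10 := by
    have := log_two_lt_d9
    linarith
  have hlog20 : 0 ≤ log 2 := log_nonneg (by norm_num)
  have hu0 : 0 < u := by linarith
  have hRu : R ≤ R * u := by nlinarith
  have hR1 : 100 ≤ R := by linarith
  have m2 : (N * p + 1) * log 2 ≤ 7 * R := by
    have h5 : 0 ≤ N * (p : ℝ) + 1 := by positivity
    calc (N * p + 1) * log 2 ≤ (N * p + 1) * (7 / 10) := mul_le_mul_of_nonneg_left hlog2 h5
      _ ≤ 7 * R := by linarith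
  have m1a : (2 * p + 1) * v ≤ 3 * p * v := by
    refine mul_le_mul_of_nonneg_right ?_ hv0
    linarith
  refine ⟨hpgt, ?_, ?_⟩
  · have m1 : (2 * p + 1) * v ≤ 27 / 100 * t := by
      calc (2 * p + 1) * v ≤ 3 * p * v := m1a
        _ ≤ 3 * p * (N * s / 100) := by gcongr
        _ = 3 / 100 * (N * p) * s := by ring
        _ ≤ 3 / 100 * (9 * R) * s := by gcongr
        _ = 27 / 100 * (R * s) := by ring
        _ = 27 / 100 * t := by rw [hRs]
    have m3 : 2 * t - 2 * (R * u) ≤ N * p * log (N * p) - p * log p := by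
      have h6 : p * log p ≤ p * log (N * p) := by gcongr
      have h7 : 0 ≤ log ((N : ℝ) * p) := hlogp0.trans hlogpNp
      have h8 : N * p / 2 * log (N * p) ≤ (N * p - p) * log (N * p) := by
        refine mul_le_mul_of_nonneg_right ?_ h7
        nlinarith
      have h9 : 2 * R * (s - u) ≤ N * p / 2 * log (N * p) := by
        have hsu : 0 ≤ s - u := by linarith
        calc 2 * R * (s - u) ≤ (N * p / 2) * (s - u) := by
              refine mul_le_mul_of_nonneg_right ?_ hsu
              linarith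
          _ ≤ N * p / 2 * log (N * p) := by
              refine mul_le_mul_of_nonneg_left hlogNp ?_
              positivity
      have h10 : 2 * R * (s - u) = 2 * t - 2 * (R * u) := by rw [← hRs]; ring
      nlinarith
    have m4 : N * p * (6 * u) ≤ 54 * (R * u) := by
      calc N * p * (6 * u) ≤ (9 * R) * (6 * u) := by gcongr
        _ = 54 * (R * u) := by ring
    have m5 : 110 * (R * u) ≤ t := by
      calc 110 * (R * u) = R * (110 * u) := by ring
        _ ≤ R * s := by gcongr
        _ = t := hRs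
    have ht1 : 1000 ≤ t := by
      rw [← hRs]
      nlinarith
    linarith
  · have k1 : p * log p ≤ 9 * t / N := by
      calc p * log p ≤ (9 * R / N) * s := by gcongr
        _ = 9 * (R * s) / N := by ring
        _ = 9 * t / N := by rw [hRs]
    have k2 : (2 * p + 1) * v ≤ 27 * (t * v / (N * s)) := by
      calc (2 * p + 1) * v ≤ 3 * p * v := m1a
        _ ≤ 3 * (9 * R / N) * v := by gcongr
        _ = 27 * (t * v / (N * s)) := by rw [hR]; field_simp; ring
    have k3 : 9 * R ≤ 18 * t / N := by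
      rw [le_div_iff₀ hN0]
      have : R * N ≤ R * (2 * s) := by gcongr
      rw [← hRs]
      linarith
    have k4 : 1 ≤ 3 * t / N := by
      rw [le_div_iff₀ hN0]
      nlinarith
    have k5 : 30 * t * (1 / N + v / (N * s)) = 9 * t / N + 18 * t / N + 3 * t / N +
        30 * (t * v / (N * s)) := by
      field_simp
      ring
    have k6 : 0 ≤ t * v / (N * s) := by positivity
    rw [k5]
    linarith

set_option maxHeartbeats 4000000 in
theorem m_GE : StGE := by
  obtain ⟨X0, hX0⟩ := eventually_atTop.mp (ge_facts.and (eventually_ge_atTop 2))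
  refine ⟨X0, fun t htX N W hN2 hNs hWs nn hnnmono hnn V v hVd hVp hVv hv0 hv => ?_⟩
  obtain ⟨⟨f1, f2, f3⟩, ht2⟩ := hX0 t htX
  by_contra hcon
  have hcon' : ∀ i, 30 * t * (1 / N + v / (N * Real.log t)) < lam (nn i) := fun i => by
    by_contra h
    exact hcon ⟨i, not_lt.mp h⟩
  have hs0 : 0 < log (t : ℝ) := by linarith
  have hs1 : 110 ≤ log (t : ℝ) := by linarith
  have ht0 : (0 : ℝ) < t := by linarith
  have hNR : (2 : ℝ) ≤ N := by exact_mod_cast hN2
  have hN0 : (0 : ℝ) < N := by linarith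
  have hlev0 : 0 ≤ 30 * (t : ℝ) * (1 / N + v / (N * Real.log t)) := by positivity
  have hnnt : ∀ i, t ≤ nn i := fun i => (hnn i).1
  have hnnW : ∀ i, nn i ≤ t + W := fun i => (hnn i).2
  set x : Fin N → ℤ := fun i => (nn i : ℤ) - t with hx
  have hxinj : Function.Injective x := by
    intro i j h
    apply hnnmono.injective
    have : (nn i : ℤ) - t = nn j - t := h
    omega
  have hxR : ∀ i, (x i : ℝ) = (nn i : ℝ) - t := fun i => by simp [hx]
  have hx0 : ∀ i, 0 ≤ (x i : ℝ) := by
    intro i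
    have h1 : (t : ℝ) ≤ nn i := by exact_mod_cast hnnt i
    rw [hxR]; linarith
  have hxW : ∀ i, (x i : ℝ) ≤ log (t : ℝ) ^ 5 := by
    intro i
    have h1 : (nn i : ℝ) ≤ t + W := by exact_mod_cast hnnW i
    rw [hxR]; linarith
  have hxabs : ∀ i, |(x i : ℝ)| ≤ log (t : ℝ) ^ 5 := fun i => by
    rw [abs_of_nonneg (hx0 i)]; exact hxW i
  have hW1 : 1 ≤ log (t : ℝ) ^ 5 := one_le_pow₀ (by linarith)
  obtain ⟨p, hp, hp1, hp2⟩ := exists_prime_window (y := 4 * t / (N * log t)) (by positivity)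
  obtain ⟨hpW, e1, e2⟩ := exponentsGE t (log t) (log (log t)) rfl rfl f1 f2 f3 N p hN2 hNs v hv0 hv
    hp1 hp2
  -- gcd
  have hNpos : 0 < N := by omega
  have : Nonempty (Fin N) := ⟨⟨0, hNpos⟩⟩
  set a : Fin N → ℤ := fun i => round (exp (nn i : ℝ)) with ha
  obtain ⟨b, hb, hb1⟩ := Finset.extract_gcd a (Finset.univ_nonempty (α := Fin N))
  set g : ℤ := Finset.univ.gcd a with hg
  have hg0 : g ≠ 0 := by
    intro h0
    have := hb ⟨0, hNpos⟩ (Finset.mem_univ _)
    rw [h0, zero_mul] at this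
    exact round_exp_ne_zero _ this
  have hgpos : 0 < g := by
    have h3 : 0 ≤ g := by
      have : |g| = g := by rw [Int.abs_eq_normalize, hg, Finset.normalize_gcd]
      rw [← this]
      exact abs_nonneg _
    exact lt_of_le_of_ne h3 (Ne.symm hg0)
  have hgR : (1 : ℝ) ≤ g := by exact_mod_cast hgpos
  obtain ⟨js, hjs⟩ : ∃ js, ¬ (p : ℤ) ∣ b js := by
    by_contra hcon
    have hcon' : ∀ js, (p : ℤ) ∣ b js := fun js => by
      by_contra h; exact hcon ⟨js, h⟩
    have h3 : (p : ℤ) ∣ Finset.univ.gcd b := Finset.dvd_gcd fun i _ => hcon' i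
    rw [hb1] at h3
    have := Int.le_of_dvd one_pos h3
    have := hp.two_le
    omega
  set h : ℝ := -(30 * t * (1 / N + v / (N * Real.log t))) with hh
  have hbad : ∀ i, |exp (nn i : ℝ) - a i| ≤ exp h := by
    intro i
    have h5 := hcon' i
    rw [lam] at h5
    set d : ℝ := |exp (nn i : ℝ) - round (exp (nn i : ℝ))| with hd
    have hd0 : 0 ≤ d := abs_nonneg _
    have hdpos : 0 < d := by
      rcases hd0.lt_or_eq with h6 | h6
      · exact h6
      · exfalso
        rw [← h6, div_zero, log_zero] at h5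
        linarith
    rw [log_div one_ne_zero hdpos.ne', log_one, zero_sub] at h5
    have h7 : log d ≤ h := by rw [hh]; linarith
    exact (log_le_iff_le_exp hdpos).mp h7
  have hbound : ∀ i, |(b i : ℝ) - exp t / g * exp ((x i : ℝ) * (1 : ℕ))| ≤ exp h := by
    intro i
    have h3 : (a i : ℝ) = g * b i := by exact_mod_cast hb i (Finset.mem_univ _)
    have h4 : (b i : ℝ) - exp t / g * exp ((x i : ℝ) * (1 : ℕ)) =
        -((exp (nn i : ℝ) - a i) / g) := by
      rw [h3, Nat.cast_one, mul_one, hxR, exp_sub]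
      have : exp (t : ℝ) ≠ 0 := (exp_pos _).ne'
      field_simp
      ring
    rw [h4, abs_neg, abs_div, abs_of_pos (by linarith : (0:ℝ) < g)]
    calc |exp (nn i : ℝ) - a i| / g ≤ |exp (nn i : ℝ) - a i| := div_le_self (abs_nonneg _) hgR
      _ ≤ exp h := hbad i
  have hVd' : ∀ j, ∏ i ∈ Finset.univ.erase j, (x j - x i) ∣ V := by
    intro j
    have e : ∏ i ∈ Finset.univ.erase j, (x j - x i) =
        ∏ i ∈ Finset.univ.erase j, ((nn j : ℤ) - (nn i : ℤ)) := by
      refine Finset.prod_congr rfl fun i _ => ?_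
      simp only [hx]
      ring
    rw [e]
    exact hVd j
  have hpN : ¬ (p : ℤ) ∣ V := by
    refine hVp p hp ?_
    have h1 : (W : ℝ) < p := lt_of_le_of_lt hWs hpW
    exact_mod_cast h1
  have hgl := general_lemma x hxinj hW1 hxabs (T := exp t / g) (by positivity) 1 le_rfl b hbound p hp
    V hVd' hpN (by
      intro h
      have := Nat.le_of_dvd one_pos h
      have := hp.two_le
      omega) js hjs
  rw [Fintype.card_fin] at hgl
  have hWz : 2 * log (t : ℝ) ^ 5 * ((1 : ℕ) : ℝ) ≤ exp (6 * log (log t)) := by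
    have h3 : exp (6 * log (log (t : ℝ))) = log t ^ 6 := by
      rw [show 6 * log (log (t : ℝ)) = ((6 : ℕ) : ℝ) * log (log t) by norm_num, exp_nat_mul,
        exp_log hs0]
    rw [h3, Nat.cast_one, mul_one]
    have : 0 < log (t : ℝ) ^ 5 := by positivity
    calc 2 * log (t : ℝ) ^ 5 ≤ log t * log (t : ℝ) ^ 5 := by
          refine mul_le_mul_of_nonneg_right ?_ this.le
          linarith
      _ = log t ^ 6 := by ring
  have hfin := product_bound N p hNpos hp.pos |(V : ℝ)|
    (2 * log (t : ℝ) ^ 5 * ((1 : ℕ) : ℝ)) (exp t / g) ((1 : ℕ) : ℝ) (exp h)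
    v (6 * log (log t)) t 0 h (abs_nonneg _) hVv (by positivity) hWz
    (by positivity) (div_le_self (exp_pos _).le hgR) (by positivity) (by simp) (exp_pos _).le le_rfl
  have hlt : exp (-1 : ℝ) < 1 / 2 := by
    have := exp_one_gt_d9
    rw [exp_neg, inv_eq_one_div]
    exact one_div_lt_one_div_of_lt (by norm_num) (by linarith)
  have hA : exp (p * log p + (2 * p + 1) * v + log N +
      (N * p + 1) * log 2 + N * p * (6 * log (log t)) +
      (-(N * p * log (N * p)) + N * p) + 2 * log (t : ℝ) ^ 5 * ((1 : ℕ) : ℝ) + t) ≤ exp (-1) := by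
    refine exp_le_exp.mpr ?_
    rw [Nat.cast_one, mul_one]
    exact e1
  have hB : exp (p * log p + (2 * p + 1) * v + log N +
      (N * p + 1) * log 2 + 1 + p * 0 + h) ≤ exp (-1) := exp_le_exp.mpr e2
  have h17 := (hgl.trans hfin).trans (add_le_add hA hB)
  linarith

end Pool.Agent.Helper42.MT
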